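import Mathlib
import Pool.Agent.H.MP_a1e9e0_gt.A

namespace Pool.Agent.Results.MP_e518dc_lc.No

open MeasureTheory Set Cardinal

/-- `τ` is a labelled Markov process on the measurable space `S` with labels `L`. -/
def IsLMP {L S : Type} [MeasurableSpace S] (τ : L → S → Measure S) : Prop :=
  (∀ a s, τ a s univ ≤ 1) ∧ ∀ a (X : Set S), MeasurableSet X → Measurable fun s => τ a s X

/-- Formulas of the logic. -/
inductive Form (L : Type) : Type
  | top : Form L
  | and : Form L → Form L → Form L
  | dia : L → (q : ℚ) → 0 ≤ q → q ≤ 1 → Form L → Form L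

/-- The set of states satisfying a formula. -/
def sem {L S : Type} [MeasurableSpace S] (τ : L → S → Measure S) : Form L → Set S
  | .top => univ
  | .and φ ψ => sem τ φ ∩ sem τ ψ
  | .dia a q _ _ φ => {s | ENNReal.ofReal (q : ℝ) ≤ τ a s (sem τ φ)}

/-- `R` is an `⊕`-bisimulation: an equivalence relation on `S ⊕ S'` such that related states in
different summands give the same mass to every `R`-closed measurable set. -/
def IsSumBisim {L S S' : Type} [MeasurableSpace S] [MeasurableSpace S'] (τ : L → S → Measure S)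
    (τ' : L → S' → Measure S') (R : S ⊕ S' → S ⊕ S' → Prop) : Prop :=
  Equivalence R ∧ ∀ s s', R (Sum.inl s) (Sum.inr s') → ∀ a (A : Set (S ⊕ S')), MeasurableSet A →
    (∀ x y, x ∈ A → (R x y ∨ R y x) → y ∈ A) → τ a s (Sum.inl ⁻¹' A) = τ' a s' (Sum.inr ⁻¹' A)

theorem thick : ∃ V : Set unitInterval, ∀ B : Set unitInterval, MeasurableSet B → volume B ≠ 0 →
    (B ∩ V).Nonempty ∧ (B ∩ Vᶜ).Nonempty := by
  let I := {B : Set unitInterval // MeasurableSet B ∧ volume B ≠ 0}
  have hI : #I ≤ 𝔠 := by
    have h := MeasurableSpace.cardinal_measurableSet_le_continuum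
      (s := MeasurableSpace.countableGeneratingSet unitInterval)
      ((le_aleph0_iff_set_countable.mpr MeasurableSpace.countable_countableGeneratingSet).trans
        aleph0_le_continuum)
    rw [MeasurableSpace.generateFrom_countableGeneratingSet] at h
    exact (mk_subtype_le_of_subset fun B hB => hB.1).trans h
  obtain ⟨t, ht, htP⟩ := Pool.Agent.H.MP_a1e9e0_gt.A.inj (fun i : I × Bool => i.1.1) fun i => by
    obtain ⟨K, hK, hc, h0⟩ := i.1.2.1.exists_lt_isCompact (pos_iff_ne_zero.mpr i.1.2.2)
    obtain ⟨f, hf, -, hi⟩ := hc.isClosed.exists_nat_bool_injection_of_not_countable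
      fun h => h0.ne' (h.measure_zero _)
    have h1 : 𝔠 ≤ #(i.1.1) := by
      have := mk_le_mk_of_subset (hf.trans hK)
      rw [mk_range_eq _ hi] at this
      simpa using this
    refine le_trans ?_ h1
    rw [mk_prod, lift_id, lift_id]
    exact (mul_le_mul' hI (mk_le_aleph0.trans aleph0_le_continuum)).trans_eq
      (mul_eq_self aleph0_le_continuum)
  refine ⟨range fun i : I => t (i, true), fun B hB h0 => ⟨⟨t (⟨B, hB, h0⟩, true),
    htP (⟨B, hB, h0⟩, true), _, rfl⟩,
    t (⟨B, hB, h0⟩, false), htP (⟨B, hB, h0⟩, false), ?_⟩⟩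
  rintro ⟨i, e⟩
  simpa using congrArg Prod.snd (ht e)

theorem trace (V : Set unitInterval)
    (h : ∀ B : Set unitInterval, MeasurableSet B → volume B ≠ 0 → (B ∩ V).Nonempty) :
    ∃ m : Measure V, ∀ B : Set unitInterval, MeasurableSet B → m (Subtype.val ⁻¹' B) = volume B := by
  have hc : (inferInstance : MeasurableSpace V) ≤
      (OuterMeasure.comap Subtype.val (volume : Measure unitInterval).toOuterMeasure).caratheodory := by
    rintro _ ⟨B, hB, rfl⟩ t
    simp only [OuterMeasure.comap_apply, Measure.coe_toOuterMeasure]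
    rw [image_inter_preimage, image_sdiff_preimage, measure_inter_add_sdiff _ hB]
  refine ⟨OuterMeasure.toMeasure _ hc, fun B hB => ?_⟩
  rw [toMeasure_apply _ _ (measurable_subtype_coe hB), OuterMeasure.comap_apply,
    Measure.coe_toOuterMeasure, Subtype.image_preimage_coe]
  refine le_antisymm (measure_mono inter_subset_right) ?_
  rw [← measure_toMeasurable (V ∩ B)]
  refine measure_mono_ae (ae_le_set.mpr ?_)
  by_contra h0
  obtain ⟨x, hx, hV⟩ := h _ (hB.diff (measurableSet_toMeasurable _ _)) h0
  exact hx.2 (subset_toMeasurable _ _ ⟨hV, hx.1⟩)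

/-- the weight of the loop at `r` -/
noncomputable def wt (r : unitInterval) : ENNReal := ENNReal.ofReal (r / 2)

theorem wt_meas : Measurable wt := by unfold wt; fun_prop

theorem wt_lt (r : unitInterval) : wt r < 1 := by
  unfold wt
  rw [ENNReal.ofReal_lt_one]
  linarith [r.2.2]

theorem wt_inj {r r' : unitInterval} (h : wt r = wt r') : r = r' := by
  unfold wt at h
  rw [ENNReal.ofReal_eq_ofReal_iff (by linarith [r.2.1]) (by linarith [r'.2.1])] at h
  exact Subtype.ext (by linarith)

/-- root with measure `m` on `V`, and a loop of weight `r / 2` at each `r ∈ V` -/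
noncomputable def tau (L : Type) {V : Set unitInterval} (m : Measure V) :
    L → Unit ⊕ V → Measure (Unit ⊕ V) := fun _ =>
  Sum.elim (fun _ => m.map Sum.inr) fun r => wt r • Measure.dirac (Sum.inr r)

section
variable {L : Type} {V : Set unitInterval} {m : Measure V}

theorem tau_l (a : L) {X : Set (Unit ⊕ V)} (hX : MeasurableSet X) :
    tau L m a (Sum.inl ()) X = m (Sum.inr ⁻¹' X) := Measure.map_apply measurable_inr hX

theorem tau_r (a : L) (r : V) {X : Set (Unit ⊕ V)} (hX : MeasurableSet X) :
    tau L m a (Sum.inr r) X = wt r * X.indicator 1 (Sum.inr r) := by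
  simp [tau, Measure.dirac_apply' _ hX]

theorem isLMP (h : m univ = 1) : IsLMP (tau L m) := by
  refine ⟨fun a s => ?_, fun a X hX => measurable_fun_sum Subsingleton.measurable ?_⟩
  · rcases s with ⟨⟨⟩⟩ | r
    · rw [tau_l _ MeasurableSet.univ]; simp [h]
    · rw [tau_r _ _ MeasurableSet.univ]; simp [(wt_lt _).le]
  · have : (fun s => tau L m a s X) ∘ Sum.inr = fun r : V => wt r * X.indicator 1 (Sum.inr r) :=
      funext fun r => tau_r a r hX
    rw [this]
    exact (wt_meas.comp measurable_subtype_coe).mul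
      ((measurable_const.indicator hX).comp measurable_inr)

theorem sem_meas {S : Type} [MeasurableSpace S] {τ : L → S → Measure S} (h : IsLMP τ)
    (φ : Form L) : MeasurableSet (sem τ φ) := by
  induction φ with
  | top => exact MeasurableSet.univ
  | and φ ψ h1 h2 => exact h1.inter h2
  | dia a q _ _ φ ih => exact measurableSet_le measurable_const (h.2 a _ ih)

end

/-- the Borel set of a formula -/
def BB {L : Type} : Form L → Set unitInterval
  | .top => univ
  | .and φ ψ => BB φ ∩ BB ψ
  | .dia _ q _ _ φ => {r | ENNReal.ofReal (q : ℝ) ≤ wt r * (BB φ).indicator 1 r}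

theorem BB_meas {L : Type} (φ : Form L) : MeasurableSet (BB φ) := by
  induction φ with
  | top => exact MeasurableSet.univ
  | and φ ψ h1 h2 => exact h1.inter h2
  | dia a q _ _ φ ih =>
    exact measurableSet_le measurable_const (wt_meas.mul (measurable_const.indicator ih))

theorem sem_r {L : Type} {V : Set unitInterval} {m : Measure V} (h : m univ = 1) (φ : Form L) :
    Sum.inr ⁻¹' sem (tau L m) φ = Subtype.val ⁻¹' BB φ := by
  induction φ with
  | top => rfl
  | and φ ψ h1 h2 => simp only [sem, BB, preimage_inter, h1, h2]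
  | dia a q _ _ φ ih =>
    ext r
    simp only [sem, BB, mem_preimage, mem_ofPred_eq]
    rw [tau_r _ _ (sem_meas (isLMP h) φ)]
    have : (Sum.inr r ∈ sem (tau L m) φ) ↔ (r.1 ∈ BB φ) := Set.ext_iff.mp ih r
    by_cases hr : r.1 ∈ BB φ
    · rw [indicator_of_mem hr, indicator_of_mem (this.mpr hr)]; rfl
    · rw [indicator_of_notMem hr, indicator_of_notMem fun h' => hr (this.mp h')]

theorem result (L : Type) [Nonempty L] :
    ∃ (S S' : Type) (_ : MeasurableSpace S) (_ : MeasurableSpace S') (τ : L → S → Measure S)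
      (τ' : L → S' → Measure S') (s : S) (s' : S'), IsLMP τ ∧ IsLMP τ' ∧
      (∀ φ : Form L, s ∈ sem τ φ ↔ s' ∈ sem τ' φ) ∧
      ¬ ∃ R, IsSumBisim τ τ' R ∧ R (Sum.inl s) (Sum.inr s') := by
  obtain ⟨V, hV⟩ := thick
  obtain ⟨m, hm⟩ := trace V fun B hB h0 => (hV B hB h0).1
  obtain ⟨m', hm'⟩ := trace Vᶜ fun B hB h0 => (hV B hB h0).2
  have h1 : m univ = 1 := by simpa using hm univ MeasurableSet.univ
  have h1' : m' univ = 1 := by simpa using hm' univ MeasurableSet.univ
  refine ⟨Unit ⊕ V, Unit ⊕ (Vᶜ : Set unitInterval), inferInstance, inferInstance, tau L m, tau L m',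
    Sum.inl (), Sum.inl (), isLMP h1, isLMP h1', fun φ => ?_, ?_⟩
  · induction φ with
    | top => rfl
    | and φ ψ ih1 ih2 => exact and_congr ih1 ih2
    | dia a q _ _ φ _ =>
      simp only [sem, mem_ofPred_eq]
      rw [tau_l _ (sem_meas (isLMP h1) φ), tau_l _ (sem_meas (isLMP h1') φ), sem_r h1, sem_r h1',
        hm _ (BB_meas φ), hm' _ (BB_meas φ)]
  · rintro ⟨R, ⟨hE, hR⟩, h0⟩
    obtain ⟨a⟩ := ‹Nonempty L›
    have cross : ∀ (r : V) y, ¬ R (Sum.inl (Sum.inr r)) (Sum.inr y) := by
      intro r y hr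
      have := hR _ _ hr a univ MeasurableSet.univ fun _ _ _ _ => mem_univ _
      rw [preimage_univ, preimage_univ, tau_r _ _ MeasurableSet.univ] at this
      rcases y with ⟨⟨⟩⟩ | r'
      · rw [tau_l _ MeasurableSet.univ, preimage_univ, h1'] at this
        simp [(wt_lt _).ne] at this
      · rw [tau_r _ _ MeasurableSet.univ] at this
        simp only [indicator_univ, Pi.one_apply, mul_one] at this
        exact r'.2 (wt_inj this ▸ r.2)
    have := hR _ _ h0 a (Sum.inl '' (range Sum.inr)) measurableSet_range_inr.inl_image ?_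
    · rw [Sum.inl_injective.preimage_image, tau_l _ measurableSet_range_inr] at this
      have e : (Sum.inr ⁻¹' (Sum.inl '' (range Sum.inr) :
          Set ((Unit ⊕ V) ⊕ (Unit ⊕ (Vᶜ : Set unitInterval))))) = ∅ := by
        ext y; simp
      rw [e, measure_empty, preimage_range, h1] at this
      exact one_ne_zero this
    · rintro _ y ⟨_, ⟨r, rfl⟩, rfl⟩ hy
      have hy' : R (Sum.inl (Sum.inr r)) y := hy.elim id hE.symm
      rcases y with (⟨⟨⟩⟩ | r') | y
      · exact absurd (hE.trans hy' h0) (cross r _)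
      · exact ⟨_, ⟨r', rfl⟩, rfl⟩
      · exact absurd hy' (cross r y)

end Pool.Agent.Results.MP_e518dc_lc.No
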